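import Mathlib

set_option autoImplicit false

namespace Pool.Agent.Results.MP_f9f43c_al.Cusp

open Polynomial
open scoped TensorProduct

/-- The image of `A` in `K ⊗ A`. -/
noncomputable def img (D A : Type) [CommRing D] [Ring A] [Algebra D A] :
    Subring (FractionRing D ⊗[D] A) :=
  (Algebra.TensorProduct.includeRight : A →ₐ[D] FractionRing D ⊗[D] A).toRingHom.range

/-- Integer-valued polynomials on `A` with coefficients in the fraction field. -/
noncomputable def IntK (D A : Type) [CommRing D] [Ring A] [Algebra D A] :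
    Subring (FractionRing D)[X] :=
  ⨅ a : A, (img D A).comap (aeval ((1 : FractionRing D) ⊗ₜ[D] a)).toRingHom

abbrev D : Type := ℚ[X]
abbrev K : Type := FractionRing D
abbrev A : Type := QuadraticAlgebra D (X ^ 3) 0

noncomputable def co (l : A →ₗ[D] D) : K ⊗[D] A →ₗ[D] K :=
  (TensorProduct.rid D K).toLinearMap ∘ₗ l.lTensor K

theorem co_tmul (l : A →ₗ[D] D) (k : K) (a : A) : co l (k ⊗ₜ a) = algebraMap D K (l a) * k := by
  simp [co, Algebra.smul_def]

theorem eq_range : IntK D A = (mapRingHom (algebraMap D K)).range := by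
  refine le_antisymm (fun f hf => ?_) ?_
  · have hv : ∀ q : ℚ, ∃ d : D, f.eval (q : K) = algebraMap D K d := by
      intro q
      obtain ⟨a, ha⟩ := Subring.mem_iInf.1 hf (algebraMap D A (C q))
      have e : (1 : K) ⊗ₜ[D] algebraMap D A (C q) = algebraMap K (K ⊗[D] A) (q : K) := by
        rw [← Algebra.TensorProduct.algebraMap_apply', IsScalarTower.algebraMap_apply D K]
        congr 1
        exact eq_ratCast ((algebraMap D K).comp C) q
      change (1 : K) ⊗ₜ[D] a = aeval _ f at ha
      rw [e, aeval_algebraMap_apply_eq_algebraMap_eval] at ha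
      have := congrArg (co (QuadraticAlgebra.reₗ _ _)) ha
      rw [Algebra.TensorProduct.algebraMap_apply, co_tmul, co_tmul] at this
      exact ⟨a.re, by simpa [QuadraticAlgebra.re_one] using this.symm⟩
    have hC : ∀ d : D, C (algebraMap D K d) ∈ (mapRingHom (algebraMap D K)).range :=
      fun d => ⟨C d, by simp⟩
    have hq : ∀ q : ℚ, C (q : K) ∈ (mapRingHom (algebraMap D K)).range := fun q =>
      (eq_ratCast ((algebraMap D K).comp C) q) ▸ hC (C q)
    rw [Lagrange.eq_interpolate (s := Finset.range (f.natDegree + 1))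
      (v := fun i => ((i : ℚ) : K)) (f := f) (fun i _ j _ h => by simpa using h)
      (by rw [Finset.card_range]; exact degree_le_natDegree.trans_lt (by exact_mod_cast lt_add_one _)),
      Lagrange.interpolate_apply]
    refine sum_mem fun i _ => mul_mem ?_ (prod_mem fun j _ => mul_mem ?_ (sub_mem ⟨X, by simp⟩ (hq _)))
    · obtain ⟨d, hd⟩ := hv i
      exact hd ▸ hC d
    · convert hq ((i : ℚ) - j)⁻¹ using 2
      simp
  · rintro _ ⟨g, rfl⟩
    refine Subring.mem_iInf.2 fun a => ⟨aeval a g, ?_⟩
    change Algebra.TensorProduct.includeRight (aeval a g) = aeval _ (g.map _)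
    rw [aeval_map_algebraMap, ← aeval_algHom_apply]
    rfl

theorem norm_ne (z : A) (h : z.norm = 0) : z = 0 := by
  rw [QuadraticAlgebra.norm_def] at h
  have h1 : z.re ^ 2 = X ^ 3 * z.im ^ 2 := by linear_combination h
  have h2 : z.im = 0 := by
    by_contra h0
    have := congrArg natDegree h1
    rw [natDegree_mul (by simp) (by simpa using h0), natDegree_pow, natDegree_pow, natDegree_pow,
      natDegree_X] at this
    omega
  rw [h2] at h1
  exact QuadraticAlgebra.ext (by simpa using h1) h2

theorem result : ∃ (D : Type) (_ : CommRing D) (A : Type) (_ : CommRing A) (_ : Algebra D A),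
    IsDomain D ∧ IsIntegrallyClosed D ∧ IsDomain A ∧ Function.Injective (algebraMap D A) ∧
    Module.IsTorsionFree D A ∧ Module.Finite D A ∧ IsIntegrallyClosed (IntK D A) ∧
    ∃ b : FractionRing D ⊗[D] A, IsIntegral D b ∧ b ∉ img D A := by
  have : NoZeroDivisors A := ⟨fun {a b} h => by
    have := congrArg QuadraticAlgebra.norm h
    rw [map_mul, QuadraticAlgebra.norm_zero, mul_eq_zero] at this
    exact this.imp (norm_ne a) (norm_ne b)⟩
  have hX : algebraMap D K X ≠ 0 := by simp
  refine ⟨D, inferInstance, A, inferInstance, inferInstance, inferInstance, inferInstance,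
    NoZeroDivisors.to_isDomain A, QuadraticAlgebra.algebraMap_injective, inferInstance,
    inferInstance, ?_, (algebraMap D K X)⁻¹ ⊗ₜ QuadraticAlgebra.omega, ?_, ?_⟩
  · rw [eq_range]
    exact IsIntegrallyClosed.of_equiv (RingEquiv.ofBijective (mapRingHom (algebraMap D K)).rangeRestrict
      ⟨fun _ _ h => map_injective _ (IsFractionRing.injective D K) (congrArg Subtype.val h),
        RingHom.rangeRestrict_surjective _⟩)
  · refine IsIntegral.of_pow two_pos ?_
    convert isIntegral_algebraMap (R := D) (A := K ⊗[D] A) (x := X)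
    rw [sq, Algebra.TensorProduct.tmul_mul_tmul, QuadraticAlgebra.omega_mul_omega_eq_add, zero_smul,
      add_zero, ← TensorProduct.smul_tmul, Algebra.TensorProduct.algebraMap_apply, Algebra.smul_def,
      map_pow]
    congr 1
    field_simp
  · rintro ⟨a, ha⟩
    change (1 : K) ⊗ₜ[D] a = _ at ha
    have := congrArg (co (QuadraticAlgebra.imₗ _ _)) ha
    rw [co_tmul, co_tmul] at this
    have h1 : algebraMap D K (X * a.im) = algebraMap D K 1 := by
      have e : algebraMap D K a.im = (algebraMap D K X)⁻¹ := by simpa using this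
      rw [map_mul, e, mul_inv_cancel₀ hX, map_one]
    exact not_isUnit_X (IsUnit.of_mul_eq_one _ (IsFractionRing.injective D K h1))

end Pool.Agent.Results.MP_f9f43c_al.Cusp
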